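import Pool.Agent.H91.AMSys

set_option autoImplicit false

open Set H91.AMSys in
theorem Pool.Agent.Results.MP_f06e6c_an.Minimal.result :
    ∀ x₀ y₀ : ℝ, 1 / 2 < x₀ → x₀ < 1 → 1 / 2 ≤ y₀ → y₀ < x₀ →
    ∀ x ∈ Ioo (0 : ℝ) 1, Ioo (0 : ℝ) 1 ⊆ closure (orbit x₀ y₀ x) :=
  main
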